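import Pool.Agent.Helper767.Niche.Rup

/-!
The propositional encoding used for the lower bound on the niche number.
-/

set_option autoImplicit false

namespace Pool.Agent.Helper767.NicheCnf

open Pool.Agent.Helper767.Rup

/-- arc variable -/
def X (i j : ℕ) : ℕ := 10 * i + j
/-- order variable -/
def L (i j : ℕ) : ℕ := 100 + (10 * i + j)
/-- common prey variable of the edge number `e` -/
def Y (e a : ℕ) : ℕ := 200 + (20 * e + a)
/-- common predator variable of the edge number `e` -/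
def Z (e a : ℕ) : ℕ := 210 + (20 * e + a)

def bit (i : ℕ) : ℕ := Nat.pow 2 i

/-- the fourteen edges: a 4-cycle, a complete graph on 4 vertices, a perfect matching between. -/
def edgeList : List (ℕ × ℕ) :=
  [(0, 1), (0, 3), (0, 4), (1, 2), (1, 5), (2, 3), (2, 6), (3, 7), (4, 5), (4, 6), (4, 7), (5, 6),
    (5, 7), (6, 7)]

/-- the non-adjacent pairs. -/
def nonEdgeList : List (ℕ × ℕ) :=
  [(0, 2), (0, 5), (0, 6), (0, 7), (0, 8), (0, 9), (1, 3), (1, 4), (1, 6), (1, 7), (1, 8), (1, 9),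
    (2, 4), (2, 5), (2, 7), (2, 8), (2, 9), (3, 4), (3, 5), (3, 6), (3, 8), (3, 9), (4, 8), (4, 9),
    (5, 8), (5, 9), (6, 8), (6, 9), (7, 8), (7, 9), (8, 9)]

def ten : List ℕ := [0, 1, 2, 3, 4, 5, 6, 7, 8, 9]

def F0 : List (ℕ × ℕ) := ten.map fun i => (0, bit (L i i))
def F1 : List (ℕ × ℕ) := ten.flatMap fun i => ten.map fun j => (bit (L i j), bit (X i j))
def F2 : List (ℕ × ℕ) := ten.flatMap fun i => ten.flatMap fun j => ten.map fun k =>
  (bit (L i k), Nat.lor (bit (L i j)) (bit (L j k)))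
def F3 : List (ℕ × ℕ) := nonEdgeList.flatMap fun q => ten.flatMap fun a =>
  [(0, Nat.lor (bit (X q.1 a)) (bit (X q.2 a))), (0, Nat.lor (bit (X a q.1)) (bit (X a q.2)))]
def F4 : ℕ → List (ℕ × ℕ) → List (ℕ × ℕ)
  | _, [] => []
  | e, q :: qs => ((Nat.pow 2 20 - 1) * bit (Y e 0), 0) ::
      ((ten.flatMap fun a => [(bit (X q.1 a), bit (Y e a)), (bit (X q.2 a), bit (Y e a)),
        (bit (X a q.1), bit (Z e a)), (bit (X a q.2), bit (Z e a))]) ++ F4 (e + 1) qs)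
def F5 : List (ℕ × ℕ) := [(0, bit (L 1 0)), (0, bit (L 2 0)), (0, bit (L 3 0))]

def cnf : List (ℕ × ℕ) := F0 ++ F1 ++ F2 ++ F3 ++ F4 0 edgeList ++ F5

def pos (x : ℕ) : ℕ × ℕ := (bit x, 0)
def neg (x : ℕ) : ℕ × ℕ := (0, bit x)

def units0 : List (ℕ × ℕ) :=
  [pos (X 4 7)]
def units1 : List (ℕ × ℕ) :=
  [neg (X 4 7), pos (X 3 7)]
def units2 : List (ℕ × ℕ) :=
  [neg (X 4 7), neg (X 3 7), pos (X 9 0)]
def units3 : List (ℕ × ℕ) :=
  [neg (X 4 7), neg (X 3 7), neg (X 9 0), pos (X 4 9)]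
def units4 : List (ℕ × ℕ) :=
  [neg (X 4 7), neg (X 3 7), neg (X 9 0), neg (X 4 9), pos (X 1 4)]
def units5 : List (ℕ × ℕ) :=
  [neg (X 4 7), neg (X 3 7), neg (X 9 0), neg (X 4 9), neg (X 1 4), pos (X 2 3)]
def units6 : List (ℕ × ℕ) :=
  [neg (X 4 7), neg (X 3 7), neg (X 9 0), neg (X 4 9), neg (X 1 4), neg (X 2 3), pos (X 5 7)]
def units7 : List (ℕ × ℕ) :=
  [neg (X 4 7), neg (X 3 7), neg (X 9 0), neg (X 4 9), neg (X 1 4), neg (X 2 3), neg (X 5 7)]

end Pool.Agent.Helper767.NicheCnf
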