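import Pool.Agent.Helper767.Niche.Cert0
import Pool.Agent.Helper767.Niche.Cert1
import Pool.Agent.Helper767.Niche.Cert2
import Pool.Agent.Helper767.Niche.Cert3
import Pool.Agent.Helper767.Niche.Cert4
import Pool.Agent.Helper767.Niche.Cert5
import Pool.Agent.Helper767.Niche.Cert6
import Pool.Agent.Helper767.Niche.Cert7

/-!
From the refutation to the combinatorial statement on ten vertices.
-/

set_option autoImplicit false

namespace Pool.Agent.Helper767.NicheLower

open Pool.Agent.Helper767.Rup Pool.Agent.Helper767.NicheCnf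

section Sat

variable {v : ℕ → Prop}

theorem testBit_bit (a i : ℕ) : (bit a).testBit i = decide (a = i) := by
  change (2 ^ a).testBit i = _
  rw [Nat.testBit_two_pow]

theorem sat_imp {α β : ℕ} (h : v β → v α) : Sat v (bit α) (bit β) := by
  by_cases hv : v α
  · exact Or.inl ⟨α, by simp [testBit_bit], hv⟩
  · exact Or.inr ⟨β, by simp [testBit_bit], fun hb => hv (h hb)⟩

theorem testBit_lor_bit (α β i : ℕ) :
    (Nat.lor (bit α) (bit β)).testBit i = (decide (α = i) || decide (β = i)) := by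
  change (bit α ||| bit β).testBit i = _
  rw [Nat.testBit_lor, testBit_bit, testBit_bit]

theorem sat_neg2 {α β : ℕ} (h : ¬ (v α ∧ v β)) : Sat v 0 (Nat.lor (bit α) (bit β)) := by
  by_cases ha : v α
  · exact Or.inr ⟨β, by rw [testBit_lor_bit]; simp, fun hb => h ⟨ha, hb⟩⟩
  · exact Or.inr ⟨α, by rw [testBit_lor_bit]; simp, ha⟩

theorem sat_imp2 {α β γ : ℕ} (h : v α → v β → v γ) : Sat v (bit γ) (Nat.lor (bit α) (bit β)) := by
  by_cases hc : v γ
  · exact Or.inl ⟨γ, by simp [testBit_bit], hc⟩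
  · by_cases ha : v α
    · exact Or.inr ⟨β, by rw [testBit_lor_bit]; simp, fun hb => hc (h ha hb)⟩
    · exact Or.inr ⟨α, by rw [testBit_lor_bit]; simp, ha⟩

theorem sat_neg {α : ℕ} (h : ¬ v α) : Sat v 0 (bit α) := Or.inr ⟨α, by simp [testBit_bit], h⟩

theorem sat_pos {α : ℕ} (h : v α) : Sat v (bit α) 0 := Or.inl ⟨α, by simp [testBit_bit], h⟩

theorem sat_big {k r : ℕ} (hr : r < 20) (h : v (k + r)) : Sat v ((Nat.pow 2 20 - 1) * bit k) 0 := by
  refine Or.inl ⟨k + r, ?_, h⟩
  change ((2 ^ 20 - 1) * 2 ^ k).testBit (k + r) = true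
  rw [Nat.testBit_mul_two_pow, Nat.add_sub_cancel_left, Nat.testBit_two_pow_sub_one]
  simp [hr]

end Sat

theorem mem_ten {i : ℕ} : i ∈ ten ↔ i < 10 := by
  simp only [ten, List.mem_cons, List.not_mem_nil, or_false]
  omega

/-- The edge with number `e`. -/
def edgeAt (e : ℕ) : ℕ × ℕ := edgeList.getD e (0, 0)

/-- The valuation attached to an arc relation `a` and a strict order `l`. -/
def val (a l : ℕ → ℕ → Prop) (n : ℕ) : Prop :=
  if n < 100 then a (n / 10) (n % 10)
  else if n < 200 then l ((n - 100) / 10) ((n - 100) % 10)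
  else if (n - 200) % 20 < 10 then
    a (edgeAt ((n - 200) / 20)).1 ((n - 200) % 20) ∧ a (edgeAt ((n - 200) / 20)).2 ((n - 200) % 20)
  else
    a ((n - 200) % 20 - 10) (edgeAt ((n - 200) / 20)).1 ∧
      a ((n - 200) % 20 - 10) (edgeAt ((n - 200) / 20)).2

variable {a l : ℕ → ℕ → Prop}

theorem val_X {i j : ℕ} (hi : i < 10) (hj : j < 10) : val a l (X i j) ↔ a i j := by
  unfold val X
  rw [if_pos (by omega), show (10 * i + j) / 10 = i by omega, show (10 * i + j) % 10 = j by omega]

theorem val_L {i j : ℕ} (hi : i < 10) (hj : j < 10) : val a l (L i j) ↔ l i j := by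
  unfold val L
  rw [if_neg (by omega), if_pos (by omega), show (100 + (10 * i + j) - 100) / 10 = i by omega,
    show (100 + (10 * i + j) - 100) % 10 = j by omega]

theorem val_Y {e x : ℕ} (hx : x < 10) :
    val a l (Y e x) ↔ a (edgeAt e).1 x ∧ a (edgeAt e).2 x := by
  unfold val Y
  rw [if_neg (by omega), if_neg (by omega), if_pos (by omega),
    show (200 + (20 * e + x) - 200) / 20 = e by omega,
    show (200 + (20 * e + x) - 200) % 20 = x by omega]

theorem val_Z {e x : ℕ} (hx : x < 10) :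
    val a l (Z e x) ↔ a x (edgeAt e).1 ∧ a x (edgeAt e).2 := by
  unfold val Z
  rw [if_neg (by omega), if_neg (by omega), if_neg (by omega),
    show (210 + (20 * e + x) - 200) / 20 = e by omega,
    show (210 + (20 * e + x) - 200) % 20 - 10 = x by omega]

theorem edge_lt : ∀ q ∈ edgeList, q.1 < 10 ∧ q.2 < 10 := by decide

theorem nonEdge_lt : ∀ q ∈ nonEdgeList, q.1 < 10 ∧ q.2 < 10 := by decide

theorem sat_F4 (he : ∀ q ∈ edgeList, ∃ x, x < 10 ∧ ((a q.1 x ∧ a q.2 x) ∨ (a x q.1 ∧ a x q.2))) :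
    ∀ (qs : List (ℕ × ℕ)) (e : ℕ), edgeList.drop e = qs →
      ∀ c ∈ F4 e qs, Sat (val a l) c.1 c.2 := by
  intro qs
  induction qs with
  | nil => intro e _ c hc; simp [F4] at hc
  | cons q qs ih =>
    intro e hdrop c hc
    have hq : edgeAt e = q := by
      unfold edgeAt
      have h1 : (edgeList.drop e).getD 0 (0, 0) = q := by rw [hdrop]; rfl
      rw [← h1, List.getD_eq_getElem?_getD, List.getD_eq_getElem?_getD, List.getElem?_drop]
      simp
    have hmem : q ∈ edgeList := by
      have : q ∈ edgeList.drop e := by rw [hdrop]; exact List.mem_cons_self ..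
      exact List.mem_of_mem_drop this
    have hnext : edgeList.drop (e + 1) = qs := by
      have h1 : (edgeList.drop e).drop 1 = qs := by rw [hdrop]; rfl
      rw [List.drop_drop] at h1
      exact h1
    obtain ⟨hq1, hq2⟩ := edge_lt q hmem
    simp only [F4, List.mem_cons, List.mem_append, List.mem_flatMap, List.not_mem_nil,
      or_false] at hc
    rcases hc with rfl | ⟨x, hx, hc⟩ | hc
    · obtain ⟨x, hx, h | h⟩ := he q hmem
      · refine sat_big (r := x) (by omega) ?_
        have : val a l (Y e x) := (val_Y hx).2 (by rw [hq]; exact h)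
        simpa [Y, add_assoc] using this
      · refine sat_big (r := 10 + x) (by omega) ?_
        have h2 : val a l (Z e x) := (val_Z hx).2 (by rw [hq]; exact h)
        have h3 : Z e x = Y e 0 + (10 + x) := by unfold Z Y; omega
        rw [← h3]; exact h2
    · have hx' := mem_ten.1 hx
      rcases hc with rfl | rfl | rfl | rfl
      · refine sat_imp fun h => ?_
        rw [val_Y hx', hq] at h
        exact (val_X hq1 hx').2 h.1
      · refine sat_imp fun h => ?_
        rw [val_Y hx', hq] at h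
        exact (val_X hq2 hx').2 h.2
      · refine sat_imp fun h => ?_
        rw [val_Z hx', hq] at h
        exact (val_X hx' hq1).2 h.1
      · refine sat_imp fun h => ?_
        rw [val_Z hx', hq] at h
        exact (val_X hx' hq2).2 h.2
    · exact ih (e + 1) hnext c hc

theorem sat_cnf (hl0 : ∀ i, ¬ l i i) (hal : ∀ i j, a i j → l i j)
    (htr : ∀ i j k, l i j → l j k → l i k)
    (hne : ∀ q ∈ nonEdgeList, ∀ x, ¬ (a q.1 x ∧ a q.2 x) ∧ ¬ (a x q.1 ∧ a x q.2))
    (he : ∀ q ∈ edgeList, ∃ x, x < 10 ∧ ((a q.1 x ∧ a q.2 x) ∨ (a x q.1 ∧ a x q.2)))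
    (h1 : ¬ l 1 0) (h2 : ¬ l 2 0) (h3 : ¬ l 3 0) : ∀ c ∈ cnf, Sat (val a l) c.1 c.2 := by
  intro c hc
  simp only [cnf, List.mem_append] at hc
  rcases hc with ((((hc | hc) | hc) | hc) | hc) | hc
  · simp only [F0, List.mem_map, mem_ten] at hc
    obtain ⟨i, hi, rfl⟩ := hc
    exact sat_neg (by rw [val_L hi hi]; exact hl0 i)
  · simp only [F1, List.mem_flatMap, List.mem_map, mem_ten] at hc
    obtain ⟨i, hi, j, hj, rfl⟩ := hc
    exact sat_imp (by rw [val_L hi hj, val_X hi hj]; exact hal i j)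
  · simp only [F2, List.mem_flatMap, List.mem_map, mem_ten] at hc
    obtain ⟨i, hi, j, hj, k, hk, rfl⟩ := hc
    exact sat_imp2 (by rw [val_L hi hj, val_L hj hk, val_L hi hk]; exact htr i j k)
  · simp only [F3, List.mem_flatMap, mem_ten, List.mem_cons, List.not_mem_nil, or_false] at hc
    obtain ⟨q, hq, x, hx, hc⟩ := hc
    obtain ⟨hq1, hq2⟩ := nonEdge_lt q hq
    rcases hc with rfl | rfl
    · exact sat_neg2 (by rw [val_X hq1 hx, val_X hq2 hx]; exact (hne q hq x).1)
    · exact sat_neg2 (by rw [val_X hx hq1, val_X hx hq2]; exact (hne q hq x).2)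
  · exact sat_F4 he edgeList 0 rfl c hc
  · simp only [F5, List.mem_cons, List.not_mem_nil, or_false] at hc
    rcases hc with rfl | rfl | rfl
    · exact sat_neg (by rw [val_L (by norm_num) (by norm_num)]; exact h1)
    · exact sat_neg (by rw [val_L (by norm_num) (by norm_num)]; exact h2)
    · exact sat_neg (by rw [val_L (by norm_num) (by norm_num)]; exact h3)

/-- The propositional core: there is no such pair `a`, `l` with `0` minimal on the 4-cycle. -/
theorem core (hl0 : ∀ i, ¬ l i i) (hal : ∀ i j, a i j → l i j)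
    (htr : ∀ i j k, l i j → l j k → l i k)
    (hne : ∀ q ∈ nonEdgeList, ∀ x, ¬ (a q.1 x ∧ a q.2 x) ∧ ¬ (a x q.1 ∧ a x q.2))
    (he : ∀ q ∈ edgeList, ∃ x, x < 10 ∧ ((a q.1 x ∧ a q.2 x) ∨ (a x q.1 ∧ a x q.2)))
    (h1 : ¬ l 1 0) (h2 : ¬ l 2 0) (h3 : ¬ l 3 0) : False := by
  have hc := sat_cnf hl0 hal htr hne he h1 h2 h3
  have key : ∀ {us : List (ℕ × ℕ)} {steps : List ℕ} {n : ℕ},
      build (cnf ++ us) Tr.nil 0 (fun t => run steps t n) = true →
      (∀ c ∈ us, Sat (val a l) c.1 c.2) → False := by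
    intro us steps n h hu
    refine refute h (val a l) fun c hcm => ?_
    rcases List.mem_append.1 hcm with hcm | hcm
    · exact hc c hcm
    · exact hu c hcm
  have P : ∀ {x : ℕ}, val a l x → Sat (val a l) (pos x).1 (pos x).2 := fun h => sat_pos h
  have Q : ∀ {x : ℕ}, ¬ val a l x → Sat (val a l) (neg x).1 (neg x).2 := fun h => sat_neg h
  have n0 : ¬ val a l (X 4 7) := fun h => key NicheCert0.ok (by
    intro c hcm
    simp only [units0, List.mem_cons, List.not_mem_nil, or_false] at hcm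
    rcases hcm with rfl
    exact P h)
  have n1 : ¬ val a l (X 3 7) := fun h => key NicheCert1.ok (by
    intro c hcm
    simp only [units1, List.mem_cons, List.not_mem_nil, or_false] at hcm
    rcases hcm with rfl | rfl
    · exact Q n0
    · exact P h)
  have n2 : ¬ val a l (X 9 0) := fun h => key NicheCert2.ok (by
    intro c hcm
    simp only [units2, List.mem_cons, List.not_mem_nil, or_false] at hcm
    rcases hcm with rfl | rfl | rfl
    · exact Q n0
    · exact Q n1
    · exact P h)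
  have n3 : ¬ val a l (X 4 9) := fun h => key NicheCert3.ok (by
    intro c hcm
    simp only [units3, List.mem_cons, List.not_mem_nil, or_false] at hcm
    rcases hcm with rfl | rfl | rfl | rfl
    · exact Q n0
    · exact Q n1
    · exact Q n2
    · exact P h)
  have n4 : ¬ val a l (X 1 4) := fun h => key NicheCert4.ok (by
    intro c hcm
    simp only [units4, List.mem_cons, List.not_mem_nil, or_false] at hcm
    rcases hcm with rfl | rfl | rfl | rfl | rfl
    · exact Q n0
    · exact Q n1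
    · exact Q n2
    · exact Q n3
    · exact P h)
  have n5 : ¬ val a l (X 2 3) := fun h => key NicheCert5.ok (by
    intro c hcm
    simp only [units5, List.mem_cons, List.not_mem_nil, or_false] at hcm
    rcases hcm with rfl | rfl | rfl | rfl | rfl | rfl
    · exact Q n0
    · exact Q n1
    · exact Q n2
    · exact Q n3
    · exact Q n4
    · exact P h)
  have n6 : ¬ val a l (X 5 7) := fun h => key NicheCert6.ok (by
    intro c hcm
    simp only [units6, List.mem_cons, List.not_mem_nil, or_false] at hcm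
    rcases hcm with rfl | rfl | rfl | rfl | rfl | rfl | rfl
    · exact Q n0
    · exact Q n1
    · exact Q n2
    · exact Q n3
    · exact Q n4
    · exact Q n5
    · exact P h)
  refine key NicheCert7.ok (by
    intro c hcm
    simp only [units7, List.mem_cons, List.not_mem_nil, or_false] at hcm
    rcases hcm with rfl | rfl | rfl | rfl | rfl | rfl | rfl
    · exact Q n0
    · exact Q n1
    · exact Q n2
    · exact Q n3
    · exact Q n4
    · exact Q n5
    · exact Q n6)

/-- Adjacency: `0,1,2,3` a 4-cycle, `4,5,6,7` a complete graph, `i` adjacent to `i + 4` for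
`i < 4`, and `8`, `9` isolated. -/
def adjB (u v : ℕ) : Bool :=
  decide (u < 8) && decide (v < 8) && decide (u ≠ v) &&
    ((decide (u < 4) && decide (v < 4) && (decide (v = (u + 1) % 4) || decide (u = (v + 1) % 4))) ||
      (decide (4 ≤ u) && decide (4 ≤ v)) || decide (v = u + 4) || decide (u = v + 4))

/-- Rotation by `i`. -/
def rot (i x : ℕ) : ℕ := if x < 4 then (x + i) % 4 else if x < 8 then 4 + (x - 4 + i) % 4 else x

theorem edges_adj : ∀ q ∈ edgeList, adjB q.1 q.2 = true := by decide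

theorem nonEdges_adj : ∀ q ∈ nonEdgeList, q.1 ≠ q.2 ∧ adjB q.1 q.2 = false := by decide

theorem rot_adj : ∀ i < 4, ∀ u < 10, ∀ v < 10, adjB (rot i u) (rot i v) = adjB u v := by
  decide +kernel

theorem rot_lt : ∀ i < 4, ∀ u < 10, rot i u < 10 := by decide +kernel

theorem rot_inj : ∀ i < 4, ∀ u < 10, ∀ v < 10, rot i u = rot i v → u = v := by decide +kernel

theorem rot_surj : ∀ i < 4, ∀ u < 10, ∃ v, v < 10 ∧ rot i v = u := by
  have h : ∀ i < 4, ∀ u < 10, ∃ v < 10, rot i v = u := by decide +kernel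
  exact h

theorem no_digraph (hl0 : ∀ i, ¬ l i i) (hal : ∀ i j, a i j → l i j)
    (htr : ∀ i j k, l i j → l j k → l i k)
    (hne : ∀ u v, u < 10 → v < 10 → u ≠ v → adjB u v = false →
      ∀ x, ¬ (a u x ∧ a v x) ∧ ¬ (a x u ∧ a x v))
    (he : ∀ u v, adjB u v = true → ∃ x, x < 10 ∧ ((a u x ∧ a v x) ∨ (a x u ∧ a x v))) : False := by
  -- a minimal element of the 4-cycle
  obtain ⟨i, hi, hmin⟩ : ∃ i, i < 4 ∧ ∀ j, j < 4 → ¬ l j i := by
    let r : Fin 4 → Fin 4 → Prop := fun i j => l i.val j.val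
    have : IsTrans (Fin 4) r := ⟨fun i j k h1 h2 => htr _ _ _ h1 h2⟩
    have : Std.Irrefl r := ⟨fun i => hl0 i.val⟩
    have hwf : WellFounded r := Finite.wellFounded_of_trans_of_irrefl r
    obtain ⟨m, _, hm⟩ := hwf.has_min Set.univ ⟨0, trivial⟩
    exact ⟨m.val, m.isLt, fun j hj h => hm ⟨j, hj⟩ trivial h⟩
  have hr0 : rot i 0 = i := by unfold rot; rw [if_pos (by norm_num)]; omega
  have hrlt : ∀ j, j < 4 → rot i j < 4 := by
    intro j hj; unfold rot; rw [if_pos hj]; omega
  refine core (a := fun x y => a (rot i x) (rot i y)) (l := fun x y => l (rot i x) (rot i y))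
    (fun _ => hl0 _) (fun _ _ => hal _ _) (fun _ _ _ => htr _ _ _) ?_ ?_ ?_ ?_ ?_
  · intro q hq x
    obtain ⟨hq1, hq2⟩ := nonEdge_lt q hq
    obtain ⟨hne', hadj⟩ := nonEdges_adj q hq
    exact hne _ _ (rot_lt i hi _ hq1) (rot_lt i hi _ hq2)
      (fun h => hne' (rot_inj i hi _ hq1 _ hq2 h)) (by rw [rot_adj i hi _ hq1 _ hq2]; exact hadj) _
  · intro q hq
    obtain ⟨hq1, hq2⟩ := edge_lt q hq
    obtain ⟨x, hx, h⟩ := he (rot i q.1) (rot i q.2) (by
      rw [rot_adj i hi _ hq1 _ hq2]; exact edges_adj q hq)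
    obtain ⟨y, hy, rfl⟩ := rot_surj i hi x hx
    exact ⟨y, hy, h⟩
  · change ¬ l (rot i 1) (rot i 0)
    rw [hr0]; exact hmin _ (hrlt 1 (by norm_num))
  · change ¬ l (rot i 2) (rot i 0)
    rw [hr0]; exact hmin _ (hrlt 2 (by norm_num))
  · change ¬ l (rot i 3) (rot i 0)
    rw [hr0]; exact hmin _ (hrlt 3 (by norm_num))

end Pool.Agent.Helper767.NicheLower
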